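import Pool.Agent.X84.HetCycle

set_option autoImplicit false
open Real Set Filter Topology MeasureTheory
open Pool.Agent.X84.HetCycle

namespace Pool.Agent.Results.MP_794bd6_an.HeteroclinicTorusDiffeo

/-- The two-torus `(ℝ/2πℤ)²`. -/
abbrev Torus : Type := AddCircle (2 * π) × AddCircle (2 * π)

/-- The plane: universal cover of the two-torus, and its tangent space at every point. -/
abbrev Plane : Type := ℝ × ℝ

/-- The covering map `ℝ² → (ℝ/2πℤ)²`. -/
noncomputable def proj (z : Plane) : Torus := ((z.1 : AddCircle (2 * π)), (z.2 : AddCircle (2 * π)))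

/-- A point of the plane above a point of the torus. -/
noncomputable def rep (x : Torus) : Plane := (Quotient.out x.1, Quotient.out x.2)

/-- The homeomorphism `f` of the torus is a real-analytic diffeomorphism: `F` is an analytic lift
of `f` to the plane and `G` is an analytic lift of `f⁻¹`. The derivative of `fⁿ` at `proj z` is that
of `Fⁿ` at `z`. -/
structure IsAnalyticDiffeo (f : Torus ≃ₜ Torus) (F G : Plane → Plane) : Prop where
  lift : ∀ z, f (proj z) = proj (F z)
  lift_symm : ∀ z, f.symm (proj z) = proj (G z)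
  left_inv : ∀ z, G (F z) = z
  right_inv : ∀ z, F (G z) = z
  analytic : ContDiff ℝ ⊤ F
  analytic_symm : ContDiff ℝ ⊤ G

/-- The norm `max (1, ‖A‖, |det A|)` of the endomorphism `Λ⁰A ⊕ Λ¹A ⊕ Λ²A` which `A` induces on the
exterior algebra of the plane. -/
noncomputable def extNorm (A : Plane →L[ℝ] Plane) : ℝ := max 1 (max ‖A‖ |A.det|)

/-- `χ₊(x)`: the growth rate `lim (1/n) log ‖Λ T_x fⁿ‖` of the derivative on the exterior algebra,
that is, the sum of the positive Lyapunov exponents at `x` (written as an upper limit). -/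
noncomputable def chiPlus (F : Plane → Plane) (x : Torus) : ℝ :=
  limsup (fun n : ℕ => 1 / (n : ℝ) * log (extNorm (fderiv ℝ F^[n] (rep x)))) atTop

/-- Shannon entropy of the finite partition of the torus into the sets `{P = i}`. -/
noncomputable def shannonEntropy {ι : Type} [Fintype ι] (ρ : Measure Torus) (P : Torus → ι) : ℝ :=
  ∑ i, negMulLog (ρ.real (P ⁻¹' {i}))

/-- The join of the partitions `P, f⁻¹P, ..., f^{-(n-1)}P`: the point `x` is sent to the word
`P(x), P(f x), ..., P(f^{n-1} x)`. -/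
def itinerary {ι : Type} (f : Torus → Torus) (P : Torus → ι) (n : ℕ) (x : Torus) : Fin n → ι :=
  fun j => P (f^[j] x)

/-- Kolmogorov-Sinai entropy of `f` with respect to `ρ`: the supremum over the finite measurable
partitions `P` of the limit of `H(P ∨ f⁻¹P ∨ ... ∨ f^{-(n-1)}P) / n` (written as an upper
limit). -/
noncomputable def ksEntropy (ρ : Measure Torus) (f : Torus → Torus) : EReal :=
  ⨆ (k : ℕ) (P : Torus → Fin k) (_ : Measurable P),
    limsup (fun n : ℕ => ((shannonEntropy ρ (itinerary f P n) / n : ℝ) : EReal)) atTop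

/-! ### entropy of measures supported by fixed points -/

lemma itin_preimage {ρ : Measure Torus} {f : Torus → Torus} (hf : ∀ᵐ x ∂ρ, f x = x) {k : ℕ}
    (P : Torus → Fin k) {n : ℕ} :
    ∀ᵐ x ∂ρ, itinerary f P n x = fun _ => P x := by
  filter_upwards [hf] with x hx
  funext j
  have : ∀ m : ℕ, f^[m] x = x := fun m => Function.iterate_fixed hx m
  simp only [itinerary, this]

lemma shannon_itin {ρ : Measure Torus} [IsProbabilityMeasure ρ] {f : Torus → Torus}
    (hf : ∀ᵐ x ∂ρ, f x = x) {k : ℕ} (P : Torus → Fin k) {n : ℕ} (hn : 0 < n) :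
    shannonEntropy ρ (itinerary f P n) = shannonEntropy ρ P := by
  classical
  have hae := itin_preimage hf P (n := n)
  have hconst : ∀ w : Fin n → Fin k, ρ.real (itinerary f P n ⁻¹' {w})
      = ρ.real ((fun x => (fun _ : Fin n => P x)) ⁻¹' {w}) := by
    intro w
    apply measureReal_congr
    filter_upwards [hae] with x hx
    apply propext
    show itinerary f P n x = w ↔ (fun _ : Fin n => P x) = w
    rw [hx]
  unfold shannonEntropy
  have hinj : Function.Injective (fun i : Fin k => (fun _ : Fin n => i)) := by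
    intro i j h; exact congrFun h ⟨0, hn⟩
  rw [← Finset.sum_subset (Finset.subset_univ (Finset.univ.image (fun i : Fin k => (fun _ : Fin n => i))))]
  · rw [Finset.sum_image (fun a _ b _ h => hinj h)]
    refine Finset.sum_congr rfl fun i _ => ?_
    rw [hconst]
    have hset : ((fun x => (fun _ : Fin n => P x)) ⁻¹' {(fun _ : Fin n => i)}) = P ⁻¹' {i} := by
      ext x
      constructor
      · intro h; exact hinj h
      · intro h
        have h' : P x = i := h
        show (fun _ : Fin n => P x) = (fun _ : Fin n => i)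
        rw [h']
    rw [hset]
  · intro w _ hw
    rw [hconst]
    have : ((fun x => (fun _ : Fin n => P x)) ⁻¹' {w}) = ∅ := by
      ext x
      constructor
      · intro h
        exact hw (Finset.mem_image.2 ⟨P x, Finset.mem_univ _, h⟩)
      · intro h; exact h.elim
    rw [this]; simp

lemma ksEntropy_eq_zero {ρ : Measure Torus} [IsProbabilityMeasure ρ] {f : Torus → Torus}
    (hf : ∀ᵐ x ∂ρ, f x = x) : ksEntropy ρ f = 0 := by
  have hval : ∀ (k : ℕ) (P : Torus → Fin k),
      limsup (fun n : ℕ => ((shannonEntropy ρ (itinerary f P n) / n : ℝ) : EReal)) atTop = 0 := by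
    intro k P
    have h1 : Tendsto (fun n : ℕ => ((shannonEntropy ρ (itinerary f P n) / n : ℝ) : EReal)) atTop
        (𝓝 ((0 : ℝ) : EReal)) := by
      apply (continuous_coe_real_ereal.tendsto _).comp
      have h2 : Tendsto (fun n : ℕ => shannonEntropy ρ P / (n : ℝ)) atTop (𝓝 0) :=
        tendsto_const_div_atTop_nhds_zero_nat _
      refine h2.congr' ?_
      filter_upwards [eventually_gt_atTop 0] with n hn
      rw [shannon_itin hf P hn]
    simpa using h1.limsup_eq
  unfold ksEntropy
  apply le_antisymm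
  · refine iSup_le fun k => iSup_le fun P => iSup_le fun _ => ?_
    rw [hval]
  · refine le_iSup_of_le 1 (le_iSup_of_le (fun _ => 0) (le_iSup_of_le measurable_const ?_))
    rw [hval]

/-! ### the torus map -/

lemma two_pi_fact : Fact (0 < 2 * π) := ⟨by positivity⟩

attribute [local instance] two_pi_fact

/-- sine on the circle -/
noncomputable def sinT : AddCircle (2 * π) → ℝ := Real.sin_periodic.lift

/-- cosine on the circle -/
noncomputable def cosT : AddCircle (2 * π) → ℝ := Real.cos_periodic.lift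

lemma sinT_coe (x : ℝ) : sinT (x : AddCircle (2 * π)) = sin x := Real.sin_periodic.lift_coe x
lemma cosT_coe (x : ℝ) : cosT (x : AddCircle (2 * π)) = cos x := Real.cos_periodic.lift_coe x

lemma sinT_continuous : Continuous sinT := by
  rw [QuotientAddGroup.isOpenQuotientMap_mk.isQuotientMap.continuous_iff]
  have : sinT ∘ (QuotientAddGroup.mk : ℝ → AddCircle (2 * π)) = sin := by
    funext x; exact sinT_coe x
  rw [this]; exact continuous_sin

lemma cosT_continuous : Continuous cosT := by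
  rw [QuotientAddGroup.isOpenQuotientMap_mk.isQuotientMap.continuous_iff]
  have : cosT ∘ (QuotientAddGroup.mk : ℝ → AddCircle (2 * π)) = cos := by
    funext x; exact cosT_coe x
  rw [this]; exact continuous_cos

/-- the map of the torus -/
noncomputable def fT (x : Torus) : Torus :=
  (x.1 + (((2 * cosT x.2 - cosT x.1) / 8 * sinT x.1 : ℝ) : AddCircle (2 * π)),
   x.2 + ((-(2 * cosT x.1 + cosT x.2) / 8 * sinT x.2 : ℝ) : AddCircle (2 * π)))

lemma proj_surjective (x : Torus) : ∃ z, proj z = x := by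
  obtain ⟨a, b⟩ := x
  obtain ⟨a, rfl⟩ := QuotientAddGroup.mk_surjective a
  obtain ⟨b, rfl⟩ := QuotientAddGroup.mk_surjective b
  exact ⟨(a, b), rfl⟩

lemma fT_proj (z : Plane) : fT (proj z) = proj (F z) := by
  ext
  · simp only [fT, proj, F, sinT_coe, cosT_coe, t₁, AddCircle.coe_add]
  · simp only [fT, proj, F, sinT_coe, cosT_coe, t₂, AddCircle.coe_add]

lemma fT_continuous : Continuous fT := by
  have hc : Continuous (fun x : ℝ => (x : AddCircle (2 * π))) := AddCircle.continuous_mk' _
  have s1 : Continuous fun x : Torus => sinT x.1 := sinT_continuous.comp continuous_fst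
  have s2 : Continuous fun x : Torus => sinT x.2 := sinT_continuous.comp continuous_snd
  have c1 : Continuous fun x : Torus => cosT x.1 := cosT_continuous.comp continuous_fst
  have c2 : Continuous fun x : Torus => cosT x.2 := cosT_continuous.comp continuous_snd
  unfold fT
  refine Continuous.prodMk (continuous_fst.add (hc.comp ?_)) (continuous_snd.add (hc.comp ?_))
  · exact (((continuous_const.mul c2).sub c1).div_const 8).mul s1
  · exact ((((continuous_const.mul c1).add c2).neg).div_const 8).mul s2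

lemma proj_eq_iff {z w : Plane} : proj z = proj w ↔
    ∃ k l : ℤ, z = (w.1 + k * (2 * π), w.2 + l * (2 * π)) := by
  have key : ∀ a b : ℝ, (a : AddCircle (2 * π)) = b ↔ ∃ k : ℤ, a = b + k * (2 * π) := by
    intro a b
    rw [← sub_eq_zero, ← AddCircle.coe_sub, AddCircle.coe_eq_zero_iff]
    constructor
    · rintro ⟨k, hk⟩
      refine ⟨k, ?_⟩
      rw [zsmul_eq_mul] at hk
      linarith
    · rintro ⟨k, hk⟩
      refine ⟨k, ?_⟩
      rw [zsmul_eq_mul]
      linarith
  unfold proj
  rw [Prod.mk.injEq, key, key]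
  constructor
  · rintro ⟨⟨k, hk⟩, ⟨l, hl⟩⟩
    exact ⟨k, l, Prod.ext hk hl⟩
  · rintro ⟨k, l, h⟩
    exact ⟨⟨k, congrArg Prod.fst h⟩, ⟨l, congrArg Prod.snd h⟩⟩

lemma F_translate (w : Plane) (k l : ℤ) :
    F (w.1 + k * (2 * π), w.2 + l * (2 * π)) = ((F w).1 + k * (2 * π), (F w).2 + l * (2 * π)) := by
  unfold F t₁ t₂
  simp only [sin_add_int_mul_two_pi, cos_add_int_mul_two_pi]
  ext <;> simp <;> ring

lemma fT_bijective : Function.Bijective fT := by
  constructor
  · intro x y h
    obtain ⟨z, rfl⟩ := proj_surjective x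
    obtain ⟨w, rfl⟩ := proj_surjective y
    rw [fT_proj, fT_proj, proj_eq_iff] at h
    obtain ⟨k, l, h⟩ := h
    rw [← F_translate] at h
    have h2 := Fhomeo.injective (a₁ := z) (a₂ := (w.1 + k * (2 * π), w.2 + l * (2 * π))) h
    exact proj_eq_iff.2 ⟨k, l, h2⟩
  · intro y
    obtain ⟨w, rfl⟩ := proj_surjective y
    obtain ⟨z, hz⟩ := Fhomeo.surjective w
    refine ⟨proj z, ?_⟩
    rw [fT_proj, ← Fhomeo_apply, hz]

/-- the homeomorphism of the torus -/
noncomputable def fH : Torus ≃ₜ Torus :=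
  Continuous.homeoOfEquivCompactToT2 (f := Equiv.ofBijective fT fT_bijective) fT_continuous

lemma fH_apply (x : Torus) : fH x = fT x := rfl

lemma fH_isAnalytic : IsAnalyticDiffeo fH F Fhomeo.symm where
  lift := fT_proj
  lift_symm z := by
    rw [Homeomorph.symm_apply_eq, fH_apply, fT_proj]
    have : F (Fhomeo.symm z) = z := Fhomeo.apply_symm_apply z
    rw [this]
  left_inv z := Fhomeo.symm_apply_apply z
  right_inv z := Fhomeo.apply_symm_apply z
  analytic := F_contDiff
  analytic_symm := Fhomeo_symm_contDiff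

/-! ### invariant measures -/

lemma ae_eq_of_le {ρ : Measure Torus} [IsProbabilityMeasure ρ] (hρ : MeasurePreserving fH ρ ρ)
    {E : Set Torus} (hE : MeasurableSet E) (hinv : fH ⁻¹' E = E) {h : Torus → ℝ}
    (hc : Continuous h) (hle : ∀ x ∈ E, h x ≤ h (fH x)) : ∀ᵐ x ∂ρ, x ∈ E → h (fH x) = h x := by
  have hint : Integrable h ρ := by
    have h1 : IntegrableOn h univ ρ := hc.continuousOn.integrableOn_compact isCompact_univ
    rwa [integrableOn_univ] at h1
  have hg : Integrable (E.indicator h) ρ := hint.indicator hE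
  have hcomp : (fun x => E.indicator h (fH x)) = E.indicator (fun x => h (fH x)) := by
    funext x
    by_cases hx : x ∈ E
    · have hx' : fH x ∈ E := by
        have : x ∈ fH ⁻¹' E := by rw [hinv]; exact hx
        exact this
      rw [indicator_of_mem hx, indicator_of_mem hx']
    · have hx' : fH x ∉ E := by
        intro h'
        apply hx
        rw [← hinv]; exact h'
      rw [indicator_of_notMem hx, indicator_of_notMem hx']
  have hg' : Integrable (fun x => E.indicator h (fH x)) ρ :=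
    (hρ.integrable_comp_emb fH.measurableEmbedding).2 hg
  have heq : ∫ x, E.indicator h (fH x) ∂ρ = ∫ x, E.indicator h x ∂ρ :=
    hρ.integral_comp fH.measurableEmbedding _
  have hnn : 0 ≤ fun x => E.indicator h (fH x) - E.indicator h x := by
    intro x
    have h1 := congrFun hcomp x
    show 0 ≤ E.indicator h (fH x) - E.indicator h x
    rw [h1]
    by_cases hx : x ∈ E
    · rw [indicator_of_mem hx, indicator_of_mem hx]
      linarith [hle x hx]
    · rw [indicator_of_notMem hx, indicator_of_notMem hx]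
      simp
  have hzero : ∫ x, (E.indicator h (fH x) - E.indicator h x) ∂ρ = 0 := by
    rw [integral_sub hg' hg, heq, sub_self]
  rw [integral_eq_zero_iff_of_nonneg hnn (hg'.sub hg)] at hzero
  filter_upwards [hzero] with x hx hxE
  have h1 := congrFun hcomp x
  simp only [Pi.zero_apply] at h1 hx
  rw [h1, indicator_of_mem hxE, indicator_of_mem hxE] at hx
  linarith

/-- the fixed points: corners and centres of the cells -/
def S : Set Torus := {x | (sinT x.1 = 0 ∧ sinT x.2 = 0) ∨ (cosT x.1 = 0 ∧ cosT x.2 = 0)}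

lemma drift_bounds (z : Plane) : |t₁ z.1 z.2| < 1 ∧ |t₂ z.1 z.2| < 1 :=
  ⟨lt_of_le_of_lt (t₁_abs _ _) (by norm_num), lt_of_le_of_lt (t₂_abs _ _) (by norm_num)⟩

lemma preimage_Zu : fH ⁻¹' {x : Torus | sinT x.1 = 0} = {x : Torus | sinT x.1 = 0} := by
  ext x
  obtain ⟨z, rfl⟩ := proj_surjective x
  show sinT (fT (proj z)).1 = 0 ↔ sinT (proj z).1 = 0
  rw [fT_proj]
  show sinT ((F z).1 : AddCircle (2 * π)) = 0 ↔ sinT ((z.1 : ℝ) : AddCircle (2 * π)) = 0
  rw [sinT_coe, sinT_coe]
  constructor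
  · intro h
    by_contra hne
    exact sin_step_ne_zero (drift_bounds z).1 hne h
  · intro h
    show sin (z.1 + t₁ z.1 z.2 * sin z.1) = 0
    rw [h, mul_zero, add_zero, h]

lemma preimage_Zv : fH ⁻¹' {x : Torus | sinT x.2 = 0} = {x : Torus | sinT x.2 = 0} := by
  ext x
  obtain ⟨z, rfl⟩ := proj_surjective x
  show sinT (fT (proj z)).2 = 0 ↔ sinT (proj z).2 = 0
  rw [fT_proj]
  show sinT ((F z).2 : AddCircle (2 * π)) = 0 ↔ sinT ((z.2 : ℝ) : AddCircle (2 * π)) = 0
  rw [sinT_coe, sinT_coe]
  constructor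
  · intro h
    by_contra hne
    exact sin_step_ne_zero (drift_bounds z).2 hne h
  · intro h
    show sin (z.2 + t₂ z.1 z.2 * sin z.2) = 0
    rw [h, mul_zero, add_zero, h]

/-- the product of sines decreases -/
lemma W_step (z : Plane) : |sin (F z).1 * sin (F z).2|
    ≤ |sin z.1 * sin z.2| * exp (-(cos z.1 ^ 2 + cos z.2 ^ 2) / 8) := by
  obtain ⟨h1, h2⟩ := drift_bounds z
  have a1 := abs_sin_step z.1 h1
  have a2 := abs_sin_step z.2 h2
  show |sin (z.1 + t₁ z.1 z.2 * sin z.1) * sin (z.2 + t₂ z.1 z.2 * sin z.2)| ≤ _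
  rw [abs_mul, abs_mul]
  have e1 : 1 + t₁ z.1 z.2 * cos z.1 ≤ exp (t₁ z.1 z.2 * cos z.1) := by
    have := add_one_le_exp (t₁ z.1 z.2 * cos z.1); linarith
  have e2 : 1 + t₂ z.1 z.2 * cos z.2 ≤ exp (t₂ z.1 z.2 * cos z.2) := by
    have := add_one_le_exp (t₂ z.1 z.2 * cos z.2); linarith
  have b1 := a1.trans (mul_le_mul_of_nonneg_left e1 (abs_nonneg _))
  have b2 := a2.trans (mul_le_mul_of_nonneg_left e2 (abs_nonneg _))
  have b3 := mul_le_mul b1 b2 (abs_nonneg _) (mul_nonneg (abs_nonneg _) (exp_pos _).le)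
  refine b3.trans (le_of_eq ?_)
  have e3 : exp (-(cos z.1 ^ 2 + cos z.2 ^ 2) / 8)
      = exp (t₁ z.1 z.2 * cos z.1) * exp (t₂ z.1 z.2 * cos z.2) := by
    rw [← exp_add]; congr 1; unfold t₁ t₂; ring
  rw [e3]; ring

lemma ae_mem_S {ρ : Measure Torus} [IsProbabilityMeasure ρ] (hρ : MeasurePreserving fH ρ ρ) :
    ∀ᵐ x ∂ρ, x ∈ S := by
  have s1 : Continuous fun x : Torus => sinT x.1 := sinT_continuous.comp continuous_fst
  have s2 : Continuous fun x : Torus => sinT x.2 := sinT_continuous.comp continuous_snd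
  have c1 : Continuous fun x : Torus => cosT x.1 := cosT_continuous.comp continuous_fst
  have c2 : Continuous fun x : Torus => cosT x.2 := cosT_continuous.comp continuous_snd
  have st1 := ae_eq_of_le hρ (E := univ) MeasurableSet.univ preimage_univ
    (h := fun x => -|sinT x.1 * sinT x.2|) ((s1.mul s2).abs.neg) (by
      intro x _
      obtain ⟨z, rfl⟩ := proj_surjective x
      have h1 := W_step z
      rw [fH_apply, fT_proj]
      show -|sinT ((z.1 : ℝ) : AddCircle (2 * π)) * sinT ((z.2 : ℝ) : AddCircle (2 * π))|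
        ≤ -|sinT ((F z).1 : AddCircle (2 * π)) * sinT ((F z).2 : AddCircle (2 * π))|
      rw [sinT_coe, sinT_coe, sinT_coe, sinT_coe]
      have h2 : exp (-(cos z.1 ^ 2 + cos z.2 ^ 2) / 8) ≤ 1 := by
        rw [exp_le_one_iff]; nlinarith [sq_nonneg (cos z.1), sq_nonneg (cos z.2)]
      have h3 := mul_le_mul_of_nonneg_left h2 (abs_nonneg (sin z.1 * sin z.2))
      linarith)
  have st2 := ae_eq_of_le hρ (E := {x | sinT x.1 = 0}) (isClosed_eq s1 continuous_const).measurableSet
    preimage_Zu (h := fun x => cosT x.1 * cosT x.2) (c1.mul c2) (by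
      intro x hx
      obtain ⟨z, rfl⟩ := proj_surjective x
      have hx' : sin z.1 = 0 := by rw [← sinT_coe]; exact hx
      rw [fH_apply, fT_proj]
      show cosT ((z.1 : ℝ) : AddCircle (2 * π)) * cosT ((z.2 : ℝ) : AddCircle (2 * π))
        ≤ cosT ((F z).1 : AddCircle (2 * π)) * cosT ((F z).2 : AddCircle (2 * π))
      rw [cosT_coe, cosT_coe, cosT_coe, cosT_coe]
      show cos z.1 * cos z.2 ≤ cos (z.1 + t₁ z.1 z.2 * sin z.1) * cos (z.2 + t₂ z.1 z.2 * sin z.2)
      rw [hx', mul_zero, add_zero]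
      have h1 := (cos_step z.2 (drift_bounds z).2.le).1
      have hc : cos z.1 = 1 ∨ cos z.1 = -1 := by
        have := sin_sq_add_cos_sq z.1
        rw [hx'] at this
        have h3 : (cos z.1 - 1) * (cos z.1 + 1) = 0 := by nlinarith
        rcases mul_eq_zero.1 h3 with h | h
        · left; linarith
        · right; linarith
      have hb1 := cos_le_one z.2
      have hb2 := neg_one_le_cos z.2
      set D := cos (z.2 + t₂ z.1 z.2 * sin z.2) - cos z.2 with hD
      have ht2 : t₂ z.1 z.2 = -(2 * cos z.1 + cos z.2) / 8 := rfl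
      have goal : 0 ≤ cos z.1 * D := by
        rcases hc with h | h
        · rw [h, one_mul]
          rw [h] at ht2
          by_contra hneg
          push Not at hneg
          have : t₂ z.1 z.2 < 0 := by rw [ht2]; linarith
          nlinarith
        · rw [h]
          rw [h] at ht2
          by_contra hneg
          push Not at hneg
          have : 0 < t₂ z.1 z.2 := by rw [ht2]; linarith
          nlinarith
      have : cos (z.2 + t₂ z.1 z.2 * sin z.2) = cos z.2 + D := by rw [hD]; ring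
      rw [this]; nlinarith)
  have st3 := ae_eq_of_le hρ (E := {x | sinT x.2 = 0}) (isClosed_eq s2 continuous_const).measurableSet
    preimage_Zv (h := fun x => -(cosT x.1 * cosT x.2)) ((c1.mul c2).neg) (by
      intro x hx
      obtain ⟨z, rfl⟩ := proj_surjective x
      have hx' : sin z.2 = 0 := by rw [← sinT_coe]; exact hx
      rw [fH_apply, fT_proj]
      show -(cosT ((z.1 : ℝ) : AddCircle (2 * π)) * cosT ((z.2 : ℝ) : AddCircle (2 * π)))
        ≤ -(cosT ((F z).1 : AddCircle (2 * π)) * cosT ((F z).2 : AddCircle (2 * π)))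
      rw [cosT_coe, cosT_coe, cosT_coe, cosT_coe]
      show -(cos z.1 * cos z.2)
        ≤ -(cos (z.1 + t₁ z.1 z.2 * sin z.1) * cos (z.2 + t₂ z.1 z.2 * sin z.2))
      rw [hx', mul_zero, add_zero]
      have h1 := (cos_step z.1 (drift_bounds z).1.le).1
      have hc : cos z.2 = 1 ∨ cos z.2 = -1 := by
        have := sin_sq_add_cos_sq z.2
        rw [hx'] at this
        have h3 : (cos z.2 - 1) * (cos z.2 + 1) = 0 := by nlinarith
        rcases mul_eq_zero.1 h3 with h | h
        · left; linarith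
        · right; linarith
      have hb1 := cos_le_one z.1
      have hb2 := neg_one_le_cos z.1
      set D := cos (z.1 + t₁ z.1 z.2 * sin z.1) - cos z.1 with hD
      have ht1 : t₁ z.1 z.2 = (2 * cos z.2 - cos z.1) / 8 := rfl
      have goal : cos z.2 * D ≤ 0 := by
        rcases hc with h | h
        · rw [h, one_mul]
          rw [h] at ht1
          by_contra hneg
          push Not at hneg
          have : 0 < t₁ z.1 z.2 := by rw [ht1]; linarith
          nlinarith
        · rw [h]
          rw [h] at ht1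
          by_contra hneg
          push Not at hneg
          have : t₁ z.1 z.2 < 0 := by rw [ht1]; linarith
          nlinarith
      have : cos (z.1 + t₁ z.1 z.2 * sin z.1) = cos z.1 + D := by rw [hD]; ring
      rw [this]; nlinarith)
  filter_upwards [st1, st2, st3] with x h1 h2 h3
  obtain ⟨z, rfl⟩ := proj_surjective x
  have h1 := h1 (mem_univ _)
  rw [fH_apply, fT_proj] at h1 h2 h3
  have e1 : sinT (proj z).1 = sin z.1 := sinT_coe _
  have e2 : sinT (proj z).2 = sin z.2 := sinT_coe _
  have e3 : cosT (proj z).1 = cos z.1 := cosT_coe _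
  have e4 : cosT (proj z).2 = cos z.2 := cosT_coe _
  have e5 : sinT (proj (F z)).1 = sin (F z).1 := sinT_coe _
  have e6 : sinT (proj (F z)).2 = sin (F z).2 := sinT_coe _
  have e7 : cosT (proj (F z)).1 = cos (F z).1 := cosT_coe _
  have e8 : cosT (proj (F z)).2 = cos (F z).2 := cosT_coe _
  simp only [e1, e2, e3, e4, e5, e6, e7, e8] at h1 h2 h3
  show (sinT (proj z).1 = 0 ∧ sinT (proj z).2 = 0) ∨ (cosT (proj z).1 = 0 ∧ cosT (proj z).2 = 0)
  rw [e1, e2, e3, e4]
  by_cases hW : sin z.1 * sin z.2 = 0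
  · left
    rcases mul_eq_zero.1 hW with hs | hs
    · refine ⟨hs, ?_⟩
      by_contra hne
      have h4 := h2 hs
      have e9 : (F z).1 = z.1 := by
        show z.1 + t₁ z.1 z.2 * sin z.1 = z.1
        rw [hs]; ring
      rw [e9] at h4
      have hc0 : cos z.1 ≠ 0 := by
        intro h; have := sin_sq_add_cos_sq z.1; rw [h, hs] at this; norm_num at this
      have h5 : cos (F z).2 = cos z.2 := mul_left_cancel₀ hc0 h4
      have ht : t₂ z.1 z.2 ≠ 0 := by
        intro h0
        have ht2 : t₂ z.1 z.2 = -(2 * cos z.1 + cos z.2) / 8 := rfl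
        rw [h0] at ht2
        have hq := sin_sq_add_cos_sq z.1
        rw [hs] at hq
        have hq2 := cos_sq_le_one z.2
        have : cos z.2 = -2 * cos z.1 := by linarith
        rw [this] at hq2
        nlinarith
      have h6 := (cos_step z.2 (drift_bounds z).2.le).2 ht hne
      have h7 : cos (z.2 + t₂ z.1 z.2 * sin z.2) = cos z.2 := h5
      rw [h7, sub_self, mul_zero] at h6
      exact lt_irrefl _ h6
    · refine ⟨?_, hs⟩
      by_contra hne
      have h4 := h3 hs
      have e9 : (F z).2 = z.2 := by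
        show z.2 + t₂ z.1 z.2 * sin z.2 = z.2
        rw [hs]; ring
      rw [e9] at h4
      have hc0 : cos z.2 ≠ 0 := by
        intro h; have := sin_sq_add_cos_sq z.2; rw [h, hs] at this; norm_num at this
      have h5 : cos (F z).1 = cos z.1 := mul_right_cancel₀ hc0 (neg_injective h4)
      have ht : t₁ z.1 z.2 ≠ 0 := by
        intro h0
        have ht1 : t₁ z.1 z.2 = (2 * cos z.2 - cos z.1) / 8 := rfl
        rw [h0] at ht1
        have hq := sin_sq_add_cos_sq z.2
        rw [hs] at hq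
        have hq2 := cos_sq_le_one z.1
        have : cos z.1 = 2 * cos z.2 := by linarith
        rw [this] at hq2
        nlinarith
      have h6 := (cos_step z.1 (drift_bounds z).1.le).2 ht hne
      have h7 : cos (z.1 + t₁ z.1 z.2 * sin z.1) = cos z.1 := h5
      rw [h7, sub_self, mul_zero] at h6
      exact lt_irrefl _ h6
  · right
    have h4 := W_step z
    have h5 : |sin (F z).1 * sin (F z).2| = |sin z.1 * sin z.2| := neg_injective h1
    rw [h5] at h4
    have h6 : 0 < |sin z.1 * sin z.2| := abs_pos.2 hW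
    have h7 : 1 ≤ exp (-(cos z.1 ^ 2 + cos z.2 ^ 2) / 8) := by
      by_contra hcon
      push Not at hcon
      nlinarith
    rw [one_le_exp_iff] at h7
    constructor
    · nlinarith [sq_nonneg (cos z.1), sq_nonneg (cos z.2)]
    · nlinarith [sq_nonneg (cos z.1), sq_nonneg (cos z.2)]

/-! ### derivatives at the fixed points -/

/-- the linear map with matrix `(a b; c d)` -/
noncomputable def mk (a b c d : ℝ) : Plane →L[ℝ] Plane :=
  (a • ContinuousLinearMap.fst ℝ ℝ ℝ + b • ContinuousLinearMap.snd ℝ ℝ ℝ).prod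
    (c • ContinuousLinearMap.fst ℝ ℝ ℝ + d • ContinuousLinearMap.snd ℝ ℝ ℝ)

lemma mk_apply (a b c d : ℝ) (z : Plane) : mk a b c d z = (a * z.1 + b * z.2, c * z.1 + d * z.2) :=
  rfl

lemma mk_norm_le (a b c d M : ℝ) (h1 : |a| + |b| ≤ M) (h2 : |c| + |d| ≤ M) :
    ‖mk a b c d‖ ≤ M := by
  have hM : 0 ≤ M := (add_nonneg (abs_nonneg a) (abs_nonneg b)).trans h1
  refine ContinuousLinearMap.opNorm_le_bound _ hM fun z => ?_
  rw [mk_apply, norm_prod_le_iff]
  have hz1 : |z.1| ≤ ‖z‖ := norm_fst_le z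
  have hz2 : |z.2| ≤ ‖z‖ := norm_snd_le z
  have key : ∀ p q : ℝ, |p| + |q| ≤ M → |p * z.1 + q * z.2| ≤ M * ‖z‖ := by
    intro p q h
    refine (abs_add_le _ _).trans ?_
    rw [abs_mul, abs_mul]
    have h3 := mul_le_mul_of_nonneg_left hz1 (abs_nonneg p)
    have h4 := mul_le_mul_of_nonneg_left hz2 (abs_nonneg q)
    have h5 := mul_le_mul_of_nonneg_right h (norm_nonneg z)
    linarith
  exact ⟨key a b h1, key c d h2⟩

lemma mk_det (a b c d : ℝ) : (mk a b c d).det = a * d - b * c := by
  have h : (mk a b c d).det = LinearMap.det ((mk a b c d : Plane →L[ℝ] Plane) : Plane →ₗ[ℝ] Plane) :=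
    rfl
  rw [h, ← LinearMap.det_toMatrix (Module.Basis.finTwoProd ℝ), Matrix.det_fin_two]
  simp [LinearMap.toMatrix_apply, mk_apply]

lemma mk_mul (a b c d a' b' c' d' : ℝ) : mk a b c d * mk a' b' c' d'
    = mk (a * a' + b * c') (a * b' + b * d') (c * a' + d * c') (c * b' + d * d') := by
  ext <;> simp [mk_apply]

lemma mk_one : (1 : Plane →L[ℝ] Plane) = mk 1 0 0 1 := by
  ext <;> simp [mk_apply]

lemma mk_diag_pow (p q : ℝ) (n : ℕ) : mk p 0 0 q ^ n = mk (p ^ n) 0 0 (q ^ n) := by
  induction n with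
  | zero => simpa using mk_one
  | succ n ih => rw [pow_succ, ih, mk_mul]; simp [pow_succ]

lemma mk_conf_pow (a b : ℝ) (n : ℕ) : ∃ A B : ℝ, mk a (-b) b a ^ n = mk A (-B) B A ∧
    A ^ 2 + B ^ 2 = (a ^ 2 + b ^ 2) ^ n := by
  induction n with
  | zero => exact ⟨1, 0, by simpa using mk_one, by norm_num⟩
  | succ n ih =>
    obtain ⟨A, B, h1, h2⟩ := ih
    refine ⟨A * a - B * b, B * a + A * b, ?_, ?_⟩
    · rw [pow_succ, h1, mk_mul]
      congr 1 <;> ring
    · rw [pow_succ (a ^ 2 + b ^ 2) n, ← h2]; ring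

lemma fderiv_F (z : Plane) : HasFDerivAt F
    (mk (1 + (sin z.1 ^ 2 / 8 + t₁ z.1 z.2 * cos z.1)) (-(sin z.2 * sin z.1 / 4))
      (sin z.1 * sin z.2 / 4) (1 + (sin z.2 ^ 2 / 8 + t₂ z.1 z.2 * cos z.2))) z := by
  have hx : HasFDerivAt (fun z : Plane => z.1) (ContinuousLinearMap.fst ℝ ℝ ℝ) z := hasFDerivAt_fst
  have hy : HasFDerivAt (fun z : Plane => z.2) (ContinuousLinearMap.snd ℝ ℝ ℝ) z := hasFDerivAt_snd
  have sx : HasFDerivAt (fun z : Plane => sin z.1) (cos z.1 • ContinuousLinearMap.fst ℝ ℝ ℝ) z :=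
    (hasDerivAt_sin z.1).comp_hasFDerivAt z hx
  have sy : HasFDerivAt (fun z : Plane => sin z.2) (cos z.2 • ContinuousLinearMap.snd ℝ ℝ ℝ) z :=
    (hasDerivAt_sin z.2).comp_hasFDerivAt z hy
  have cx : HasFDerivAt (fun z : Plane => cos z.1) ((-sin z.1) • ContinuousLinearMap.fst ℝ ℝ ℝ) z :=
    (hasDerivAt_cos z.1).comp_hasFDerivAt z hx
  have cy : HasFDerivAt (fun z : Plane => cos z.2) ((-sin z.2) • ContinuousLinearMap.snd ℝ ℝ ℝ) z :=
    (hasDerivAt_cos z.2).comp_hasFDerivAt z hy
  have h1 := hx.add ((((cy.const_mul 2).sub cx).mul_const (1 / 8)).mul sx)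
  have h2 := hy.add (((((cx.const_mul 2).add cy).neg).mul_const (1 / 8)).mul sy)
  have h3 := h1.prodMk h2
  have hF : F = fun z : Plane => (z.1 + (2 * cos z.2 - cos z.1) * (1 / 8) * sin z.1,
      z.2 + -(2 * cos z.1 + cos z.2) * (1 / 8) * sin z.2) := by
    funext z
    refine Prod.ext ?_ ?_
    · simp only [F, t₁, t₂]; ring
    · simp only [F, t₁, t₂]; ring
  rw [hF]
  refine h3.congr_fderiv ?_
  ext
  · simp [mk_apply, t₁]; ring
  · simp [mk_apply, t₁]; ring
  · simp [mk_apply, t₂]; ring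
  · simp [mk_apply, t₂]; ring

lemma fixed_of_S {z : Plane} (hz : (sin z.1 = 0 ∧ sin z.2 = 0) ∨ (cos z.1 = 0 ∧ cos z.2 = 0)) :
    F z = z := by
  show (z.1 + t₁ z.1 z.2 * sin z.1, z.2 + t₂ z.1 z.2 * sin z.2) = z
  rcases hz with ⟨h1, h2⟩ | ⟨h1, h2⟩
  · rw [h1, h2, mul_zero, mul_zero, add_zero, add_zero]
  · simp [t₁, t₂, h1, h2]

lemma tendsto_log_of_bounds {u : ℕ → ℝ} {r C : ℝ} (hr : 0 < r) (h1 : ∀ n, r ^ n ≤ u n)
    (h2 : ∀ n, u n ≤ C * r ^ n) :
    Tendsto (fun n : ℕ => 1 / (n : ℝ) * log (u n)) atTop (𝓝 (log r)) := by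
  have hC : 0 < C := by
    have a1 := h1 0
    have a2 := h2 0
    simp only [pow_zero, mul_one] at a1 a2
    linarith
  have hup : Tendsto (fun n : ℕ => log r + log C / (n : ℝ)) atTop (𝓝 (log r)) := by
    simpa using (tendsto_const_div_atTop_nhds_zero_nat (log C)).const_add (log r)
  refine tendsto_of_tendsto_of_tendsto_of_le_of_le' tendsto_const_nhds hup ?_ ?_
  · filter_upwards [eventually_gt_atTop 0] with n hn
    have hn' : (0 : ℝ) < n := by exact_mod_cast hn
    have h3 : (n : ℝ) * log r ≤ log (u n) := by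
      rw [← log_pow]; exact log_le_log (by positivity) (h1 n)
    rw [one_div, inv_mul_eq_div, le_div_iff₀ hn']
    linarith
  · filter_upwards [eventually_gt_atTop 0] with n hn
    have hn' : (0 : ℝ) < n := by exact_mod_cast hn
    have hu : 0 < u n := lt_of_lt_of_le (by positivity) (h1 n)
    have h3 : log (u n) ≤ log C + n * log r := by
      rw [← log_pow, ← log_mul hC.ne' (by positivity)]
      exact log_le_log hu (h2 n)
    rw [one_div, inv_mul_eq_div, div_le_iff₀ hn', add_mul, div_mul_cancel₀ _ hn'.ne']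
    linarith

/-- the exponent at a fixed point -/
noncomputable def expo (x : Torus) : ℝ :=
  if sinT x.1 = 0 ∧ sinT x.2 = 0 then log (9 / 8) else log (85 / 64)

lemma expo_ge (x : Torus) : log (9 / 8) ≤ expo x := by
  unfold expo
  split_ifs
  · exact le_rfl
  · exact log_le_log (by norm_num) (by norm_num)

lemma diag_ext {p q : ℝ} (hp : 1 ≤ p) (hq0 : 0 ≤ q) (hq : q ≤ 1) (n : ℕ) :
    (p ^ n ≤ extNorm (mk p 0 0 q ^ n) ∧ extNorm (mk p 0 0 q ^ n) ≤ 1 * p ^ n) ∧
    (p ^ n ≤ extNorm (mk q 0 0 p ^ n) ∧ extNorm (mk q 0 0 p ^ n) ≤ 1 * p ^ n) := by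
  have hpn : 1 ≤ p ^ n := one_le_pow₀ hp
  have hqn : q ^ n ≤ 1 := pow_le_one₀ hq0 hq
  have hqn0 : 0 ≤ q ^ n := pow_nonneg hq0 n
  have hdet : |p ^ n * q ^ n| ≤ p ^ n := by
    rw [abs_of_nonneg (by positivity)]
    exact mul_le_of_le_one_right (by linarith) hqn
  rw [mk_diag_pow, mk_diag_pow]
  refine ⟨⟨?_, ?_⟩, ⟨?_, ?_⟩⟩
  · refine le_trans ?_ ((le_max_left _ _).trans (le_max_right 1 _))
    have h := (mk (p ^ n) 0 0 (q ^ n)).le_opNorm ((1 : ℝ), (0 : ℝ))
    rw [mk_apply] at h
    simp only [mul_one, mul_zero, add_zero] at h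
    have e1 : ‖((p ^ n : ℝ), (0 : ℝ))‖ = p ^ n := by
      rw [Prod.norm_def]
      simp only [norm_zero]
      rw [Real.norm_eq_abs, abs_of_nonneg (by linarith), max_eq_left (by linarith)]
    have e2 : ‖((1 : ℝ), (0 : ℝ))‖ = 1 := by rw [Prod.norm_def]; simp
    rw [e1, e2, mul_one] at h
    exact h
  · rw [one_mul]
    refine max_le hpn (max_le ?_ ?_)
    · apply mk_norm_le
      · rw [abs_of_nonneg (by linarith), abs_zero, add_zero]
      · rw [abs_of_nonneg hqn0, abs_zero, zero_add]; linarith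
    · rw [mk_det]; simpa using hdet
  · refine le_trans ?_ ((le_max_left _ _).trans (le_max_right 1 _))
    have h := (mk (q ^ n) 0 0 (p ^ n)).le_opNorm ((0 : ℝ), (1 : ℝ))
    rw [mk_apply] at h
    simp only [mul_one, mul_zero, zero_add] at h
    have e1 : ‖((0 : ℝ), (p ^ n : ℝ))‖ = p ^ n := by
      rw [Prod.norm_def]
      simp only [norm_zero]
      rw [Real.norm_eq_abs, abs_of_nonneg (by linarith : (0 : ℝ) ≤ p ^ n),
        max_eq_right (by linarith)]
    have e2 : ‖((0 : ℝ), (1 : ℝ))‖ = 1 := by rw [Prod.norm_def]; simp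
    rw [e1, e2, mul_one] at h
    exact h
  · rw [one_mul]
    refine max_le hpn (max_le ?_ ?_)
    · apply mk_norm_le
      · rw [abs_of_nonneg hqn0, abs_zero, add_zero]; linarith
      · rw [abs_of_nonneg (by linarith : (0 : ℝ) ≤ p ^ n), abs_zero, zero_add]
    · rw [mk_det, mul_comm]
      simpa [mul_comm] using hdet

lemma conf_ext {a b : ℝ} (h : 1 ≤ a ^ 2 + b ^ 2) (n : ℕ) :
    (a ^ 2 + b ^ 2) ^ n ≤ extNorm (mk a (-b) b a ^ n) ∧
      extNorm (mk a (-b) b a ^ n) ≤ 2 * (a ^ 2 + b ^ 2) ^ n := by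
  obtain ⟨A, B, h1, h2⟩ := mk_conf_pow a b n
  rw [h1]
  set R := (a ^ 2 + b ^ 2) ^ n with hR
  have hR1 : 1 ≤ R := one_le_pow₀ h
  have hdet : (mk A (-B) B A).det = R := by rw [mk_det, ← h2]; ring
  have hA : |A| ≤ R := by
    apply abs_le_of_sq_le_sq' _ (by linarith) |> abs_le.2
    nlinarith [sq_nonneg B]
  have hB : |B| ≤ R := by
    apply abs_le_of_sq_le_sq' _ (by linarith) |> abs_le.2
    nlinarith [sq_nonneg A]
  constructor
  · refine le_trans ?_ ((le_max_right _ _).trans (le_max_right 1 _))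
    rw [hdet]; exact le_abs_self _
  · refine max_le (by linarith) (max_le ?_ ?_)
    · apply mk_norm_le
      · rw [abs_neg]; linarith
      · linarith
    · rw [hdet, abs_of_nonneg (by linarith)]; linarith

lemma tendsto_expo {x : Torus} (hx : x ∈ S) (z : Plane) (hz : proj z = x) :
    Tendsto (fun n : ℕ => 1 / (n : ℝ) * log (extNorm (fderiv ℝ F^[n] z))) atTop (𝓝 (expo x)) := by
  subst hz
  have e1 : sinT (proj z).1 = sin z.1 := sinT_coe _
  have e2 : sinT (proj z).2 = sin z.2 := sinT_coe _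
  have e3 : cosT (proj z).1 = cos z.1 := cosT_coe _
  have e4 : cosT (proj z).2 = cos z.2 := cosT_coe _
  have hx' : (sin z.1 = 0 ∧ sin z.2 = 0) ∨ (cos z.1 = 0 ∧ cos z.2 = 0) := by
    rw [← e1, ← e2, ← e3, ← e4]; exact hx
  have hfix := fixed_of_S hx'
  have hder := fderiv_F z
  set L := mk (1 + (sin z.1 ^ 2 / 8 + t₁ z.1 z.2 * cos z.1)) (-(sin z.2 * sin z.1 / 4))
      (sin z.1 * sin z.2 / 4) (1 + (sin z.2 ^ 2 / 8 + t₂ z.1 z.2 * cos z.2)) with hL
  have hit : ∀ n : ℕ, fderiv ℝ F^[n] z = L ^ n := fun n => (hder.iterate hfix n).fderiv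
  simp only [hit]
  rcases hx' with ⟨h1, h2⟩ | ⟨h1, h2⟩
  · have hexpo : expo (proj z) = log (9 / 8) := by
      unfold expo; rw [e1, e2, if_pos ⟨h1, h2⟩]
    rw [hexpo]
    have hc1 : cos z.1 = 1 ∨ cos z.1 = -1 := by
      have := sin_sq_add_cos_sq z.1
      rw [h1] at this
      have h3 : (cos z.1 - 1) * (cos z.1 + 1) = 0 := by nlinarith
      rcases mul_eq_zero.1 h3 with h | h
      · left; linarith
      · right; linarith
    have hc2 : cos z.2 = 1 ∨ cos z.2 = -1 := by
      have := sin_sq_add_cos_sq z.2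
      rw [h2] at this
      have h3 : (cos z.2 - 1) * (cos z.2 + 1) = 0 := by nlinarith
      rcases mul_eq_zero.1 h3 with h | h
      · left; linarith
      · right; linarith
    have hLv : L = mk (9 / 8) 0 0 (5 / 8) ∨ L = mk (5 / 8) 0 0 (9 / 8) := by
      rw [hL, h1, h2]
      rcases hc1 with h3 | h3 <;> rcases hc2 with h4 | h4
      · left; congr 1 <;> simp [t₁, t₂, h3, h4] <;> norm_num
      · right; congr 1 <;> simp [t₁, t₂, h3, h4] <;> norm_num
      · right; congr 1 <;> simp [t₁, t₂, h3, h4] <;> norm_num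
      · left; congr 1 <;> simp [t₁, t₂, h3, h4] <;> norm_num
    rcases hLv with h | h
    · rw [h]
      exact tendsto_log_of_bounds (C := 1) (by norm_num)
        (fun n => (diag_ext (p := 9 / 8) (q := 5 / 8) (by norm_num) (by norm_num) (by norm_num) n).1.1)
        (fun n => (diag_ext (p := 9 / 8) (q := 5 / 8) (by norm_num) (by norm_num) (by norm_num) n).1.2)
    · rw [h]
      exact tendsto_log_of_bounds (C := 1) (by norm_num)
        (fun n => (diag_ext (p := 9 / 8) (q := 5 / 8) (by norm_num) (by norm_num) (by norm_num) n).2.1)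
        (fun n => (diag_ext (p := 9 / 8) (q := 5 / 8) (by norm_num) (by norm_num) (by norm_num) n).2.2)
  · have hs1 : sin z.1 ^ 2 = 1 := by have := sin_sq_add_cos_sq z.1; rw [h1] at this; linarith
    have hs2 : sin z.2 ^ 2 = 1 := by have := sin_sq_add_cos_sq z.2; rw [h2] at this; linarith
    have hexpo : expo (proj z) = log (85 / 64) := by
      unfold expo; rw [e1, e2, if_neg]
      rintro ⟨h, -⟩
      rw [h] at hs1; norm_num at hs1
    rw [hexpo]
    have hLv : L = mk (9 / 8) (-(sin z.1 * sin z.2 / 4)) (sin z.1 * sin z.2 / 4) (9 / 8) := by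
      rw [hL, hs1, hs2, h1, h2]
      congr 1
      · ring
      · ring
      · ring
    have hR : (9 / 8 : ℝ) ^ 2 + (sin z.1 * sin z.2 / 4) ^ 2 = 85 / 64 := by
      have : (sin z.1 * sin z.2 / 4) ^ 2 = sin z.1 ^ 2 * sin z.2 ^ 2 / 16 := by ring
      rw [this, hs1, hs2]; norm_num
    rw [hLv, ← hR]
    have hge : (1 : ℝ) ≤ (9 / 8 : ℝ) ^ 2 + (sin z.1 * sin z.2 / 4) ^ 2 := by rw [hR]; norm_num
    exact tendsto_log_of_bounds (C := 2) (by linarith)
      (fun n => (conf_ext hge n).1) (fun n => (conf_ext hge n).2)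

lemma proj_rep (x : Torus) : proj (rep x) = x := by
  obtain ⟨a, b⟩ := x
  unfold proj rep
  ext
  · exact Quotient.out_eq a
  · exact Quotient.out_eq b

lemma chiPlus_eq {x : Torus} (hx : x ∈ S) : chiPlus F x = expo x :=
  (tendsto_expo hx (rep x) (proj_rep x)).limsup_eq

lemma expo_measurable : Measurable expo := by
  have s1 : Continuous fun x : Torus => sinT x.1 := sinT_continuous.comp continuous_fst
  have s2 : Continuous fun x : Torus => sinT x.2 := sinT_continuous.comp continuous_snd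
  have hE : MeasurableSet {x : Torus | sinT x.1 = 0 ∧ sinT x.2 = 0} :=
    (isClosed_eq s1 continuous_const).measurableSet.inter
      (isClosed_eq s2 continuous_const).measurableSet
  exact Measurable.ite hE measurable_const measurable_const

lemma expo_abs_le (x : Torus) : |expo x| ≤ log (85 / 64) := by
  have h1 : 0 < log (9 / 8) := log_pos (by norm_num)
  have h2 : log (9 / 8) ≤ log (85 / 64) := log_le_log (by norm_num) (by norm_num)
  unfold expo
  split_ifs
  · rw [abs_of_pos h1]; exact h2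
  · rw [abs_of_pos (by linarith)]

/-- **Q1 is false (full negative answer).** There is a real-analytic diffeomorphism `f` of the
two-torus such that every `f`-invariant Borel probability measure `ρ` has `h(ρ) = 0` and
`∫ χ₊ dρ ≥ log (9/8) > 0`. So `h(ρ) < ∫ χ₊ dρ` for every `ρ`, and the supremum of
`h(ρ) - ∫ χ₊ dρ` is negative. (The last clause says that `χ₊` is really a limit, independent of the
chosen lifts, at `ρ`-almost every point.) -/
theorem result : ∃ (f : Torus ≃ₜ Torus) (F G : Plane → Plane), IsAnalyticDiffeo f F G ∧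
    ∀ ρ : Measure Torus, IsProbabilityMeasure ρ → MeasurePreserving f ρ ρ →
      ksEntropy ρ f = 0 ∧ Integrable (chiPlus F) ρ ∧ 0 < log (9 / 8) ∧
      log (9 / 8) ≤ ∫ x, chiPlus F x ∂ρ ∧
      ksEntropy ρ f < ((∫ x, chiPlus F x ∂ρ : ℝ) : EReal) ∧
      ∀ᵐ x ∂ρ, ∀ z, proj z = x →
        Tendsto (fun n : ℕ => 1 / (n : ℝ) * log (extNorm (fderiv ℝ F^[n] z))) atTop
          (𝓝 (chiPlus F x)) := by
  refine ⟨fH, F, Fhomeo.symm, fH_isAnalytic, fun ρ hρ hinv => ?_⟩
  have hS := ae_mem_S hinv
  have hfix : ∀ᵐ x ∂ρ, fH x = x := by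
    filter_upwards [hS] with x hx
    obtain ⟨z, rfl⟩ := proj_surjective x
    have e1 : sinT (proj z).1 = sin z.1 := sinT_coe _
    have e2 : sinT (proj z).2 = sin z.2 := sinT_coe _
    have e3 : cosT (proj z).1 = cos z.1 := cosT_coe _
    have e4 : cosT (proj z).2 = cos z.2 := cosT_coe _
    have hx' : (sin z.1 = 0 ∧ sin z.2 = 0) ∨ (cos z.1 = 0 ∧ cos z.2 = 0) := by
      rw [← e1, ← e2, ← e3, ← e4]; exact hx
    rw [fH_apply, fT_proj, fixed_of_S hx']
  have hent : ksEntropy ρ fH = 0 := ksEntropy_eq_zero hfix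
  have hchi : chiPlus F =ᵐ[ρ] expo := by
    filter_upwards [hS] with x hx using chiPlus_eq hx
  have hint' : Integrable expo ρ :=
    Integrable.of_bound expo_measurable.aestronglyMeasurable (log (85 / 64))
      (Eventually.of_forall expo_abs_le)
  have hint : Integrable (chiPlus F) ρ := hint'.congr hchi.symm
  have hpos : 0 < log (9 / 8) := log_pos (by norm_num)
  have hge : log (9 / 8) ≤ ∫ x, chiPlus F x ∂ρ := by
    rw [integral_congr_ae hchi]
    calc log (9 / 8) = ∫ _, log (9 / 8) ∂ρ := by simp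
      _ ≤ ∫ x, expo x ∂ρ := integral_mono (integrable_const _) hint' expo_ge
  refine ⟨hent, hint, hpos, hge, ?_, ?_⟩
  · rw [hent]
    exact_mod_cast hpos.trans_le hge
  · filter_upwards [hS] with x hx z hz
    rw [chiPlus_eq hx]
    exact tendsto_expo hx z hz

end Pool.Agent.Results.MP_794bd6_an.HeteroclinicTorusDiffeo
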